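import Pool.Agent.GLE.StmtsA

/-!
# ESC: escape (squad GLE)
-/

set_option autoImplicit false

namespace Pool.Agent.GLE.H91

theorem step_ge (m : ℕ) (c : ℂ) : ‖av m c‖ ^ 2 - ‖c‖ ≤ ‖av (m + 1) c‖ := by
  have h1 : av (m + 1) c = (av m c) ^ 2 + c := rfl
  rw [h1]
  have h2 := norm_sub_le ((av m c) ^ 2 + c) c
  rw [add_sub_cancel_right, norm_pow] at h2
  linarith

theorem big (c : ℂ) (hc : 2 ≤ ‖c‖) : ∀ i, ‖c‖ ≤ ‖av (i + 1) c‖ := by
  intro i
  induction i with
  | zero =>
    have h1 : av 1 c = c := by simp [av]
    rw [zero_add, h1]
  | succ i ih =>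
    have h1 := step_ge (i + 1) c
    nlinarith

theorem per (n : ℕ) (c : ℂ) (h : av n c = 0) : ∀ i, av (n + i) c = av i c := by
  intro i
  induction i with
  | zero => rw [add_zero, h]; rfl
  | succ i ih =>
    have h1 : av (n + (i + 1)) c = (av (n + i) c) ^ 2 + c := rfl
    have h2 : av (i + 1) c = (av i c) ^ 2 + c := rfl
    rw [h1, h2, ih]

theorem esc : EscStmt := by
  constructor
  · intro m c hm j hj hjm
    have hc : ‖c‖ ≤ 16 := by
      by_contra hcon
      push Not at hcon
      have h1 := big c (by linarith) (m - 1)
      have h2 : m - 1 + 1 = m := by omega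
      rw [h2] at h1
      linarith
    by_contra hcon
    push Not at hcon
    have h1 : ∀ i, 16 < ‖av (j + i) c‖ := by
      intro i
      induction i with
      | zero => exact hcon
      | succ i ih =>
        have h1 := step_ge (j + i) c
        have h2 : j + (i + 1) = j + i + 1 := by omega
        rw [h2]
        nlinarith
    have h2 := h1 (m - j)
    have h3 : j + (m - j) = m := by omega
    rw [h3] at h2
    linarith
  · intro n c hn h0
    have hc : ‖c‖ ≤ 2 := by
      by_contra hcon
      push Not at hcon
      have h1 := big c hcon.le (n - 1)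
      have h2 : n - 1 + 1 = n := by omega
      rw [h2, h0, norm_zero] at h1
      linarith
    intro j
    by_contra hcon
    push Not at hcon
    have h1 : ∀ i, 2 < ‖av (j + i) c‖ := by
      intro i
      induction i with
      | zero => exact hcon
      | succ i ih =>
        have h1 := step_ge (j + i) c
        have h2 : j + (i + 1) = j + i + 1 := by omega
        rw [h2]
        nlinarith
    have hq : ∀ q, av (n * q) c = 0 := by
      intro q
      induction q with
      | zero => rfl
      | succ q ih =>
        have h2 : n * (q + 1) = n + n * q := by ring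
        rw [h2, per n c h0, ih]
    have h2 := h1 (n * j - j)
    have h3 : j + (n * j - j) = n * j := by
      have : j ≤ n * j := Nat.le_mul_of_pos_left j hn
      omega
    rw [h3, hq j, norm_zero] at h2
    linarith

end Pool.Agent.GLE.H91
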