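import Pool.Agent.GLE.StmtsC

/-!
# RDG: radial integration (squad GLE)
-/

set_option autoImplicit false

namespace Pool.Agent.GLE.H91

open MeasureTheory Filter Topology Set Complex

theorem rad_int : Integrable (fun u : ℂ => ‖u‖⁻¹ * (1 + ‖u‖ ^ 2)⁻¹) := by
  have h := (integrable_fun_norm_addHaar (μ := (volume : Measure ℂ)) (F := ℝ)
    (f := fun y : ℝ => y⁻¹ * (1 + y ^ 2)⁻¹)).2 ?_
  · exact h
  · refine (integrable_inv_one_add_sq.integrableOn (s := Set.Ioi (0 : ℝ))).congr_fun ?_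
      measurableSet_Ioi
    intro y hy
    have hy' : (0 : ℝ) < y := hy
    simp only [Complex.finrank_real_complex]
    norm_num
    rw [← mul_assoc, mul_inv_cancel₀ hy'.ne', one_mul]

theorem vg_bound (ε : ℝ) (u : ℂ) : ‖Vg ε u‖ ≤ ‖u‖⁻¹ := by
  unfold Vg
  split_ifs with h
  · simp
  · rw [norm_div, Complex.norm_real, Real.norm_eq_abs, abs_of_nonneg (by positivity)]
    rcases eq_or_ne ‖u‖ 0 with h0 | h0
    · rw [h0]; simp
    · rw [show ‖u‖ / ‖u‖ ^ 2 = ‖u‖⁻¹ from by field_simp]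

theorem vg_meas (ε : ℝ) : Measurable (Vg ε) := by
  unfold Vg
  refine Measurable.ite (measurableSet_le measurable_norm measurable_const) measurable_const ?_
  exact measurable_id.div (Complex.measurable_ofReal.comp (measurable_norm.pow_const 2))

theorem g_bound {G : ℂ → ℂ} {K : ℝ} (hG : ∀ z, ‖G z‖ ≤ K / (1 + ‖z‖) ^ 2) (a u : ℂ) :
    ‖G (a + u)‖ ≤ K * (1 + ‖a‖) ^ 2 * (1 + ‖u‖ ^ 2)⁻¹ := by
  have hK : 0 ≤ K := by
    have := (norm_nonneg _).trans (hG 0)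
    simpa using this
  have h1 : ‖u‖ ≤ ‖a + u‖ + ‖a‖ := by
    calc ‖u‖ = ‖(a + u) - a‖ := by rw [add_sub_cancel_left]
      _ ≤ ‖a + u‖ + ‖a‖ := norm_sub_le _ _
  have h2 : 1 + ‖u‖ ^ 2 ≤ (1 + ‖a + u‖) ^ 2 * (1 + ‖a‖) ^ 2 := by
    have h3 : 1 + ‖u‖ ≤ (1 + ‖a + u‖) * (1 + ‖a‖) := by
      nlinarith [norm_nonneg (a + u), norm_nonneg a, mul_nonneg (norm_nonneg (a + u))
        (norm_nonneg a)]
    calc 1 + ‖u‖ ^ 2 ≤ (1 + ‖u‖) ^ 2 := by nlinarith [norm_nonneg u]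
      _ ≤ ((1 + ‖a + u‖) * (1 + ‖a‖)) ^ 2 := pow_le_pow_left₀ (by positivity) h3 2
      _ = _ := by ring
  refine (hG _).trans ?_
  rw [div_le_iff₀ (by positivity)]
  have h4 : (1 : ℝ) ≤ (1 + ‖u‖ ^ 2)⁻¹ * ((1 + ‖a + u‖) ^ 2 * (1 + ‖a‖) ^ 2) := by
    rw [inv_mul_eq_div, le_div_iff₀ (by positivity)]
    linarith
  calc K = K * 1 := (mul_one K).symm
    _ ≤ K * ((1 + ‖u‖ ^ 2)⁻¹ * ((1 + ‖a + u‖) ^ 2 * (1 + ‖a‖) ^ 2)) :=
        mul_le_mul_of_nonneg_left h4 hK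
    _ = _ := by ring

theorem ray {Φ : ℂ → ℝ} {G : ℂ → ℂ} {K : ℝ} {E : Set ℂ} (hΦ : Continuous Φ)
    (hΦ0 : Tendsto Φ (cocompact ℂ) (𝓝 0)) (hGm : Measurable G)
    (hG : ∀ z, ‖G z‖ ≤ K / (1 + ‖z‖) ^ 2)
    (hd : ∀ z, z ∉ E → HasFDerivAt Φ (innerSL ℝ (G z)) z)
    (hE : ∀ a w : ℂ, ‖w‖ = 1 → {ρ : ℝ | a + (ρ : ℂ) * w ∈ E}.Countable)
    (a w : ℂ) (hw : ‖w‖ = 1) (ε : ℝ) :
    ∫ ρ in Set.Ioi ε, ((starRingEnd ℂ) w * G (a + (ρ : ℂ) * w)).re = -Φ (a + (ε : ℂ) * w) := by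
  have hcl : Continuous fun ρ : ℝ => a + (ρ : ℂ) * w :=
    continuous_const.add (Complex.continuous_ofReal.mul continuous_const)
  have hmeas : Measurable fun ρ : ℝ => ((starRingEnd ℂ) w * G (a + (ρ : ℂ) * w)).re :=
    Complex.measurable_re.comp (measurable_const.mul (hGm.comp hcl.measurable))
  have hbd : ∀ ρ : ℝ, ‖((starRingEnd ℂ) w * G (a + (ρ : ℂ) * w)).re‖ ≤
      K * (1 + ‖a‖) ^ 2 * (1 + ρ ^ 2)⁻¹ := by
    intro ρ
    calc ‖((starRingEnd ℂ) w * G (a + (ρ : ℂ) * w)).re‖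
        ≤ ‖(starRingEnd ℂ) w * G (a + (ρ : ℂ) * w)‖ := Complex.abs_re_le_norm _
      _ = ‖G (a + (ρ : ℂ) * w)‖ := by rw [norm_mul, RCLike.norm_conj, hw, one_mul]
      _ ≤ K * (1 + ‖a‖) ^ 2 * (1 + ‖(ρ : ℂ) * w‖ ^ 2)⁻¹ := g_bound hG a _
      _ = K * (1 + ‖a‖) ^ 2 * (1 + ρ ^ 2)⁻¹ := by
          rw [norm_mul, hw, mul_one, Complex.norm_real, Real.norm_eq_abs, sq_abs]
  have hint : Integrable fun ρ : ℝ => ((starRingEnd ℂ) w * G (a + (ρ : ℂ) * w)).re :=
    (integrable_inv_one_add_sq.const_mul (K * (1 + ‖a‖) ^ 2)).mono' hmeas.aestronglyMeasurable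
      (Eventually.of_forall hbd)
  have hlim := intervalIntegral_tendsto_integral_Ioi ε (hint.integrableOn (s := Set.Ioi ε))
    (tendsto_id (x := (atTop : Filter ℝ)))
  have hval : ∀ R : ℝ, ε ≤ R →
      ∫ ρ in ε..R, ((starRingEnd ℂ) w * G (a + (ρ : ℂ) * w)).re =
        Φ (a + (R : ℂ) * w) - Φ (a + (ε : ℂ) * w) := by
    intro R hR
    refine integral_eq_of_hasDerivAt_off_countable_of_le (fun ρ : ℝ => Φ (a + (ρ : ℂ) * w)) _ hR
      (hE a w hw) (hΦ.comp hcl).continuousOn ?_ hint.intervalIntegrable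
    intro ρ hρ
    have h1 := hd (a + (ρ : ℂ) * w) hρ.2
    have h2 : HasDerivAt (fun ρ : ℝ => a + (ρ : ℂ) * w) w ρ := by
      have h3 : HasDerivAt (fun ρ : ℝ => (ρ : ℂ)) 1 ρ := Complex.ofRealCLM.hasDerivAt
      have h4 := (h3.mul_const w).const_add a
      simpa using h4
    have h5 := h1.comp_hasDerivAt ρ h2
    have e : ((starRingEnd ℂ) w * G (a + (ρ : ℂ) * w)).re =
        (innerSL ℝ (G (a + (ρ : ℂ) * w))) w := by
      rw [innerSL_apply_apply, Complex.inner]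
      rw [Complex.mul_re, Complex.mul_re, Complex.conj_re, Complex.conj_im, Complex.conj_re,
        Complex.conj_im]
      ring
    rw [e]
    exact h5
  have hlim2 : Tendsto (fun R : ℝ => Φ (a + (R : ℂ) * w) - Φ (a + (ε : ℂ) * w)) atTop
      (𝓝 (0 - Φ (a + (ε : ℂ) * w))) := by
    refine Tendsto.sub_const (hΦ0.comp ?_) _
    rw [← Metric.cobounded_eq_cocompact, ← tendsto_norm_atTop_iff_cobounded]
    refine tendsto_atTop_mono (f := fun R : ℝ => R - ‖a‖) (fun R => ?_)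
      (tendsto_atTop_add_const_right _ (-‖a‖) tendsto_id)
    have h1 : ‖(R : ℂ) * w‖ = |R| := by
      rw [norm_mul, hw, mul_one, Complex.norm_real, Real.norm_eq_abs]
    have h2 : ‖(R : ℂ) * w‖ ≤ ‖a + (R : ℂ) * w‖ + ‖a‖ := by
      calc ‖(R : ℂ) * w‖ = ‖(a + (R : ℂ) * w) - a‖ := by rw [add_sub_cancel_left]
        _ ≤ _ := norm_sub_le _ _
    have h3 := le_abs_self R
    linarith
  have hlim3 : Tendsto (fun R : ℝ => ∫ ρ in ε..R,
      ((starRingEnd ℂ) w * G (a + (ρ : ℂ) * w)).re) atTop (𝓝 (0 - Φ (a + (ε : ℂ) * w))) := by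
    refine hlim2.congr' ?_
    filter_upwards [eventually_ge_atTop ε] with R hR
    exact (hval R hR).symm
  have := tendsto_nhds_unique hlim hlim3
  rw [this]
  ring

theorem rdg : RdgStmt := by
  intro Φ G K E hΦ hΦ0 hGm hG hd hE a ε hε
  have hFm : Measurable fun z : ℂ => ((starRingEnd ℂ) (Vg ε (z - a)) * G z).re := by
    refine Complex.measurable_re.comp (Measurable.mul ?_ hGm)
    exact Complex.continuous_conj.measurable.comp
      ((vg_meas ε).comp (measurable_id.sub measurable_const))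
  have hFb : ∀ z : ℂ, ‖((starRingEnd ℂ) (Vg ε (z - a)) * G z).re‖ ≤
      K * (1 + ‖a‖) ^ 2 * (‖z - a‖⁻¹ * (1 + ‖z - a‖ ^ 2)⁻¹) := by
    intro z
    have h1 := g_bound hG a (z - a)
    rw [add_sub_cancel] at h1
    calc ‖((starRingEnd ℂ) (Vg ε (z - a)) * G z).re‖
        ≤ ‖(starRingEnd ℂ) (Vg ε (z - a)) * G z‖ := Complex.abs_re_le_norm _
      _ = ‖Vg ε (z - a)‖ * ‖G z‖ := by rw [norm_mul, RCLike.norm_conj]
      _ ≤ ‖z - a‖⁻¹ * (K * (1 + ‖a‖) ^ 2 * (1 + ‖z - a‖ ^ 2)⁻¹) :=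
          mul_le_mul (vg_bound _ _) h1 (norm_nonneg _) (by positivity)
      _ = _ := by ring
  have hFi : Integrable fun z : ℂ => ((starRingEnd ℂ) (Vg ε (z - a)) * G z).re := by
    refine Integrable.mono' ?_ hFm.aestronglyMeasurable (Eventually.of_forall hFb)
    exact (rad_int.comp_sub_right a).const_mul _
  refine ⟨hFi, ?_⟩
  -- polar coordinates
  have hw : ∀ θ : ℝ, ‖((Real.cos θ : ℂ) + Real.sin θ * I)‖ = 1 := by
    intro θ
    have h1 : ((Real.cos θ : ℂ) + Real.sin θ * I) = Complex.exp (θ * I) := by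
      rw [Complex.exp_mul_I, Complex.ofReal_cos, Complex.ofReal_sin]
    rw [h1]
    exact Complex.norm_exp_ofReal_mul_I θ
  have e1 : ∫ z : ℂ, ((starRingEnd ℂ) (Vg ε (z - a)) * G z).re =
      ∫ z : ℂ, ((starRingEnd ℂ) (Vg ε z) * G (a + z)).re := by
    rw [← integral_add_left_eq_self (fun z : ℂ => ((starRingEnd ℂ) (Vg ε (z - a)) * G z).re) a]
    simp only [add_sub_cancel_left]
  have e2 := (Complex.integral_comp_polarCoord_symm
    (fun z : ℂ => ((starRingEnd ℂ) (Vg ε z) * G (a + z)).re)).symm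
  have e3 : ∀ p ∈ polarCoord.target,
      p.1 • (fun z : ℂ => ((starRingEnd ℂ) (Vg ε z) * G (a + z)).re)
        (Complex.polarCoord.symm p) =
      Set.indicator (Set.Ioi ε) (fun ρ : ℝ =>
        ((starRingEnd ℂ) ((Real.cos p.2 : ℂ) + Real.sin p.2 * I) *
          G (a + (ρ : ℂ) * ((Real.cos p.2 : ℂ) + Real.sin p.2 * I))).re) p.1 := by
    intro p hp
    have hp1 : 0 < p.1 := hp.1
    have hnorm : ‖Complex.polarCoord.symm p‖ = p.1 := by
      rw [Complex.norm_polarCoord_symm, abs_of_pos hp1]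
    by_cases hpe : ε < p.1
    · rw [Set.indicator_of_mem (show p.1 ∈ Set.Ioi ε from hpe)]
      simp only [Vg, hnorm, if_neg (not_le.2 hpe), smul_eq_mul]
      rw [Complex.polarCoord_symm_apply]
      rw [← Complex.re_ofReal_mul]
      congr 1
      rw [map_div₀, map_mul, Complex.conj_ofReal, Complex.conj_ofReal]
      have hp1' : (p.1 : ℂ) ≠ 0 := by exact_mod_cast hp1.ne'
      push_cast
      field_simp
    · rw [Set.indicator_of_notMem (show p.1 ∉ Set.Ioi ε from hpe)]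
      simp only [Vg, hnorm, if_pos (not_lt.1 hpe), map_zero, zero_mul, Complex.zero_re, smul_zero]
  have hcw : Continuous fun p : ℝ × ℝ => ((Real.cos p.2 : ℂ) + Real.sin p.2 * I) := by
    have h1 : Continuous fun p : ℝ × ℝ => (Real.cos p.2 : ℂ) :=
      Complex.continuous_ofReal.comp (Real.continuous_cos.comp continuous_snd)
    have h2 : Continuous fun p : ℝ × ℝ => (Real.sin p.2 : ℂ) :=
      Complex.continuous_ofReal.comp (Real.continuous_sin.comp continuous_snd)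
    exact h1.add (h2.mul continuous_const)
  have hHm : Measurable fun p : ℝ × ℝ => Set.indicator (Set.Ioi ε) (fun ρ : ℝ =>
        ((starRingEnd ℂ) ((Real.cos p.2 : ℂ) + Real.sin p.2 * I) *
          G (a + (ρ : ℂ) * ((Real.cos p.2 : ℂ) + Real.sin p.2 * I))).re) p.1 := by
    have h1 : (fun p : ℝ × ℝ => Set.indicator (Set.Ioi ε) (fun ρ : ℝ =>
        ((starRingEnd ℂ) ((Real.cos p.2 : ℂ) + Real.sin p.2 * I) *
          G (a + (ρ : ℂ) * ((Real.cos p.2 : ℂ) + Real.sin p.2 * I))).re) p.1) =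
        Set.indicator {p : ℝ × ℝ | ε < p.1} (fun p : ℝ × ℝ =>
        ((starRingEnd ℂ) ((Real.cos p.2 : ℂ) + Real.sin p.2 * I) *
          G (a + (p.1 : ℂ) * ((Real.cos p.2 : ℂ) + Real.sin p.2 * I))).re) := by
      funext p
      by_cases hpe : ε < p.1
      · rw [Set.indicator_of_mem (show p.1 ∈ Set.Ioi ε from hpe),
          Set.indicator_of_mem (show p ∈ {p : ℝ × ℝ | ε < p.1} from hpe)]
      · rw [Set.indicator_of_notMem (show p.1 ∉ Set.Ioi ε from hpe),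
          Set.indicator_of_notMem (show p ∉ {p : ℝ × ℝ | ε < p.1} from hpe)]
    rw [h1]
    refine Measurable.indicator ?_ (measurableSet_lt measurable_const measurable_fst)
    refine Complex.measurable_re.comp (Measurable.mul
      (Complex.continuous_conj.measurable.comp hcw.measurable) (hGm.comp ?_))
    exact measurable_const.add ((Complex.measurable_ofReal.comp measurable_fst).mul hcw.measurable)
  have hHb : ∀ p : ℝ × ℝ, ‖Set.indicator (Set.Ioi ε) (fun ρ : ℝ =>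
        ((starRingEnd ℂ) ((Real.cos p.2 : ℂ) + Real.sin p.2 * I) *
          G (a + (ρ : ℂ) * ((Real.cos p.2 : ℂ) + Real.sin p.2 * I))).re) p.1‖ ≤
        K * (1 + ‖a‖) ^ 2 * (1 + p.1 ^ 2)⁻¹ * 1 := by
    intro p
    have hK : 0 ≤ K := by
      have := (norm_nonneg _).trans (hG 0)
      simpa using this
    rw [mul_one]
    refine (norm_indicator_le_norm_self _ _).trans ?_
    calc ‖((starRingEnd ℂ) ((Real.cos p.2 : ℂ) + Real.sin p.2 * I) *
          G (a + (p.1 : ℂ) * ((Real.cos p.2 : ℂ) + Real.sin p.2 * I))).re‖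
        ≤ ‖(starRingEnd ℂ) ((Real.cos p.2 : ℂ) + Real.sin p.2 * I) *
          G (a + (p.1 : ℂ) * ((Real.cos p.2 : ℂ) + Real.sin p.2 * I))‖ :=
            Complex.abs_re_le_norm _
      _ = ‖G (a + (p.1 : ℂ) * ((Real.cos p.2 : ℂ) + Real.sin p.2 * I))‖ := by
            rw [norm_mul, RCLike.norm_conj, hw, one_mul]
      _ ≤ K * (1 + ‖a‖) ^ 2 *
          (1 + ‖(p.1 : ℂ) * ((Real.cos p.2 : ℂ) + Real.sin p.2 * I)‖ ^ 2)⁻¹ := g_bound hG a _
      _ = K * (1 + ‖a‖) ^ 2 * (1 + p.1 ^ 2)⁻¹ := by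
            rw [norm_mul, hw, mul_one, Complex.norm_real, Real.norm_eq_abs, sq_abs]
  have hHi : Integrable (fun p : ℝ × ℝ => Set.indicator (Set.Ioi ε) (fun ρ : ℝ =>
        ((starRingEnd ℂ) ((Real.cos p.2 : ℂ) + Real.sin p.2 * I) *
          G (a + (ρ : ℂ) * ((Real.cos p.2 : ℂ) + Real.sin p.2 * I))).re) p.1)
        ((volume.restrict (Set.Ioi (0 : ℝ))).prod
          (volume.restrict (Set.Ioo (-Real.pi) Real.pi))) := by
    refine Integrable.mono' ?_ hHm.aestronglyMeasurable (Eventually.of_forall hHb)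
    refine Integrable.mul_prod (f := fun ρ : ℝ => K * (1 + ‖a‖) ^ 2 * (1 + ρ ^ 2)⁻¹)
      (g := fun _ : ℝ => (1 : ℝ)) ?_ ?_
    · exact (integrable_inv_one_add_sq.const_mul _).integrableOn
    · refine integrableOn_const ?_
      rw [Real.volume_Ioo]
      exact ENNReal.ofReal_ne_top
  have e4 : ∫ z : ℂ, ((starRingEnd ℂ) (Vg ε (z - a)) * G z).re =
      ∫ θ in Set.Ioo (-Real.pi) Real.pi, ∫ ρ in Set.Ioi (0 : ℝ),
        Set.indicator (Set.Ioi ε) (fun ρ : ℝ =>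
        ((starRingEnd ℂ) ((Real.cos θ : ℂ) + Real.sin θ * I) *
          G (a + (ρ : ℂ) * ((Real.cos θ : ℂ) + Real.sin θ * I))).re) ρ := by
    rw [e1, e2, setIntegral_congr_fun polarCoord.open_target.measurableSet e3]
    rw [show polarCoord.target = Set.Ioi (0 : ℝ) ×ˢ Set.Ioo (-Real.pi) Real.pi from rfl]
    rw [Measure.volume_eq_prod, ← Measure.prod_restrict]
    exact integral_prod_symm _ hHi
  have e5 : ∀ θ : ℝ, ∫ ρ in Set.Ioi (0 : ℝ),
        Set.indicator (Set.Ioi ε) (fun ρ : ℝ =>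
        ((starRingEnd ℂ) ((Real.cos θ : ℂ) + Real.sin θ * I) *
          G (a + (ρ : ℂ) * ((Real.cos θ : ℂ) + Real.sin θ * I))).re) ρ =
      -Φ (circleMap a ε θ) := by
    intro θ
    rw [setIntegral_indicator measurableSet_Ioi]
    have h1 : Set.Ioi (0 : ℝ) ∩ Set.Ioi ε = Set.Ioi ε := by
      rw [Set.inter_eq_right]
      exact Set.Ioi_subset_Ioi hε
    rw [h1, ray hΦ hΦ0 hGm hG hd hE a _ (hw θ) ε]
    congr 2
    rw [circleMap, Complex.exp_mul_I, Complex.ofReal_cos, Complex.ofReal_sin]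
  rw [e4, integral_congr_ae (Eventually.of_forall e5)]
  have hpi : -Real.pi ≤ Real.pi := by linarith [Real.pi_pos]
  rw [← integral_Ioc_eq_integral_Ioo, ← intervalIntegral.integral_of_le hpi,
    intervalIntegral.integral_neg]
  have hper : Function.Periodic (fun θ : ℝ => Φ (circleMap a ε θ)) (2 * Real.pi) := by
    intro θ
    simp only [periodic_circleMap a ε θ]
  have h2 := hper.intervalIntegral_add_eq (-Real.pi) 0
  rw [show -Real.pi + 2 * Real.pi = Real.pi from by ring, zero_add] at h2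
  rw [h2, Real.circleAverage_def, smul_eq_mul]
  have hpi0 : (2 * Real.pi) ≠ 0 := by positivity
  field_simp

end Pool.Agent.GLE.H91
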