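import Pool.Agent.GLE.StmtsA

/-!
# SQA: square root of a nonvanishing power series (squad GLE)
-/

set_option autoImplicit false

namespace Pool.Agent.GLE.H91

open Filter Topology Complex

theorem mem_eb {ρ : ℝ} (hρ : 0 < ρ) {y : ℂ} :
    y ∈ Metric.eball (0 : ℂ) (ENNReal.ofReal ρ) ↔ ‖y‖ < ρ := by
  rw [Metric.mem_eball, edist_dist, dist_zero_right, ENNReal.ofReal_lt_ofReal_iff hρ]

theorem hps (s : ℕ → ℂ) (ρ : ℝ) (hρ : 0 < ρ)
    (hs : ∀ t : ℂ, ‖t‖ < ρ → Summable (fun n => s n * t ^ n)) :
    HasFPowerSeriesOnBall (fun t => ∑' n, s n * t ^ n) (FormalMultilinearSeries.ofScalars ℂ s) 0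
      (ENNReal.ofReal ρ) := by
  refine ⟨?_, ENNReal.ofReal_pos.2 hρ, ?_⟩
  · refine ENNReal.le_of_forall_nnreal_lt fun r hr => ?_
    have hr' : (r : ℝ) < ρ := by
      have h1 : ENNReal.ofReal (r : ℝ) < ENNReal.ofReal ρ := by
        rw [ENNReal.ofReal_coe_nnreal]; exact hr
      exact (ENNReal.ofReal_lt_ofReal_iff hρ).1 h1
    refine FormalMultilinearSeries.le_radius_of_tendsto _ (l := 0) ?_
    have h2 := (hs ((r : ℝ) : ℂ) (by
      rw [Complex.norm_real, Real.norm_eq_abs, abs_of_nonneg (NNReal.coe_nonneg r)]; exact hr')).tendsto_atTop_zero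
    have h3 := h2.norm
    rw [norm_zero] at h3
    refine h3.congr fun n => ?_
    rw [FormalMultilinearSeries.ofScalars_norm, norm_mul, norm_pow, Complex.norm_real,
      Real.norm_eq_abs, abs_of_nonneg (NNReal.coe_nonneg r)]
  · intro y hy
    rw [mem_eb hρ] at hy
    have h1 := (hs y hy).hasSum
    rw [zero_add]
    have e : (fun n => FormalMultilinearSeries.ofScalars ℂ s n fun _ => y) =
        fun n => s n * y ^ n := by
      rw [FormalMultilinearSeries.ofScalars_apply_eq']
      rfl
    rw [e]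
    exact h1

theorem sqa : SqaStmt := by
  intro s ρ hρ hs0 hs hne
  have hS := hps s ρ hρ hs
  have hball : ∀ t : ℂ, t ∈ Metric.ball (0 : ℂ) ρ ↔ ‖t‖ < ρ := fun t => by
    rw [Metric.mem_ball, dist_zero_right]
  -- `S` is differentiable on the ball
  have hSd : DifferentiableOn ℂ (fun t => ∑' n, s n * t ^ n) (Metric.ball 0 ρ) := by
    intro t ht
    exact (hS.analyticAt_of_mem ((mem_eb hρ).2 ((hball t).1 ht))).differentiableAt.differentiableWithinAt
  have hS0 : (∑' n, s n * (0 : ℂ) ^ n) = 1 := by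
    rw [tsum_eq_single 0]
    · rw [hs0]; simp
    · intro n hn
      rw [zero_pow hn, mul_zero]
  -- logarithm
  obtain ⟨l, hl0, hl⟩ := ((hSd.deriv Metric.isOpen_ball).div hSd
    (fun t ht => hne t ((hball t).1 ht))).isExactOn_ball.with_val_at 0 0
  have h0mem : (0 : ℂ) ∈ Metric.ball (0 : ℂ) ρ := Metric.mem_ball_self hρ
  have hexp : ∀ t : ℂ, ‖t‖ < ρ → ∑' n, s n * t ^ n = Complex.exp (l t) := by
    intro t ht
    have hd : ∀ x ∈ Metric.ball (0 : ℂ) ρ, HasDerivAt
        (fun t => (∑' n, s n * t ^ n) * Complex.exp (-l t)) 0 x := by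
      intro x hx
      have h1 : HasDerivAt (fun t => ∑' n, s n * t ^ n)
          (deriv (fun t => ∑' n, s n * t ^ n) x) x :=
        ((hSd x hx).differentiableAt (Metric.isOpen_ball.mem_nhds hx)).hasDerivAt
      have h2 := ((hl x hx).neg).cexp
      have h3 := h1.mul h2
      have hx0 := hne x ((hball x).1 hx)
      refine h3.congr_deriv ?_
      simp only [Pi.div_apply]
      field_simp
      ring
    have h4 := IsOpen.is_const_of_deriv_eq_zero (Metric.isOpen_ball)
      (convex_ball (0 : ℂ) ρ).isPreconnected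
      (fun x hx => (hd x hx).differentiableAt.differentiableWithinAt)
      (fun x hx => (hd x hx).deriv) ((hball t).2 ht) h0mem
    simp only [hl0, neg_zero, Complex.exp_zero, mul_one, hS0] at h4
    have h5 : Complex.exp (-l t) ≠ 0 := Complex.exp_ne_zero _
    have h6 : Complex.exp (l t) * Complex.exp (-l t) = 1 := by
      rw [← Complex.exp_add, add_neg_cancel, Complex.exp_zero]
    exact mul_right_cancel₀ h5 (h4.trans h6.symm)
  -- the square root
  have hqd : DifferentiableOn ℂ (fun t => Complex.exp (l t / 2)) (Metric.ball 0 ρ) := by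
    intro x hx
    exact ((hl x hx).differentiableAt.div_const 2).cexp.differentiableWithinAt
  obtain ⟨c, hc⟩ : ∃ c : ℕ → ℂ, ∀ t : ℂ, ‖t‖ < ρ →
      HasSum (fun n => c n * t ^ n) (Complex.exp (l t / 2)) := by
    refine ⟨fun n => ((n.factorial : ℂ))⁻¹ * iteratedDeriv n (fun t => Complex.exp (l t / 2)) 0,
      fun t ht => ?_⟩
    have h1 := Complex.hasSum_taylorSeries_on_ball hqd ((hball t).2 ht)
    have e : (fun n : ℕ => ((n.factorial : ℂ))⁻¹ • (t - 0) ^ n •
        iteratedDeriv n (fun t => Complex.exp (l t / 2)) 0) =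
        fun n : ℕ => ((n.factorial : ℂ))⁻¹ *
          iteratedDeriv n (fun t => Complex.exp (l t / 2)) 0 * t ^ n := by
      funext n
      simp only [sub_zero, smul_eq_mul]
      ring
    rw [e] at h1
    exact h1
  have hcs : ∀ t : ℂ, ‖t‖ < ρ → Summable (fun n => ‖c n * t ^ n‖) := fun t ht =>
    (hc t ht).summable.norm
  have hprod : ∀ (t : ℂ) (n : ℕ), ∑ k ∈ Finset.range (n + 1), (c k * t ^ k) *
      (c (n - k) * t ^ (n - k)) = (∑ k ∈ Finset.range (n + 1), c k * c (n - k)) * t ^ n := by
    intro t n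
    rw [Finset.sum_mul]
    refine Finset.sum_congr rfl fun k hk => ?_
    have hk' : k ≤ n := Nat.lt_succ_iff.1 (Finset.mem_range.1 hk)
    have : t ^ n = t ^ k * t ^ (n - k) := by rw [← pow_add, Nat.add_sub_cancel' hk']
    rw [this]
    ring
  have hds : ∀ t : ℂ, ‖t‖ < ρ →
      Summable (fun n => (∑ k ∈ Finset.range (n + 1), c k * c (n - k)) * t ^ n) := by
    intro t ht
    have h1 := (summable_norm_sum_mul_range_of_summable_norm (hcs t ht) (hcs t ht)).of_norm
    simpa only [hprod t] using h1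
  have hsq : ∀ t : ℂ, ‖t‖ < ρ →
      ∑' n, (∑ k ∈ Finset.range (n + 1), c k * c (n - k)) * t ^ n = ∑' n, s n * t ^ n := by
    intro t ht
    have h1 := tsum_mul_tsum_eq_tsum_sum_range_of_summable_norm (hcs t ht) (hcs t ht)
    simp only [hprod t] at h1
    rw [← h1, (hc t ht).tsum_eq, hexp t ht, ← Complex.exp_add]
    congr 1
    ring
  have hcoef : ∀ n, ∑ k ∈ Finset.range (n + 1), c k * c (n - k) = s n := by
    have h1 := hps (fun n => ∑ k ∈ Finset.range (n + 1), c k * c (n - k)) ρ hρ hds
    have h2 := h1.congr (g := fun t => ∑' n, s n * t ^ n)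
      (fun t ht => hsq t ((mem_eb hρ).1 ht))
    have h3 := h2.hasFPowerSeriesAt.eq_formalMultilinearSeries hS.hasFPowerSeriesAt
    have h4 := FormalMultilinearSeries.ofScalars_series_injective ℂ ℂ h3
    exact fun n => congrFun h4 n
  have hc0 : c 0 = 1 := by
    have h1 := (hc 0 (by rw [norm_zero]; exact hρ)).tsum_eq
    rw [tsum_eq_single 0] at h1
    · rw [hl0] at h1
      simpa using h1
    · intro n hn
      rw [zero_pow hn, mul_zero]
  have hcq : ∀ n, c n = sqc s n := by
    intro n
    induction n using Nat.strong_induction_on with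
    | _ n ih =>
      cases n with
      | zero => rw [hc0, sqc]
      | succ n =>
        rw [sqc]
        have h1 := hcoef (n + 1)
        rw [Finset.sum_range_succ, Finset.sum_range_succ'] at h1
        have h2 : ∑ k ∈ Finset.range n, c (k + 1) * c (n + 1 - (k + 1)) =
            ∑ i : Fin n, sqc s (i + 1) * sqc s (n - i) := by
          rw [Finset.sum_range]
          refine Finset.sum_congr rfl fun i _ => ?_
          have h3 : n + 1 - ((i : ℕ) + 1) = n - i := by omega
          rw [h3, ih (i + 1) (by omega), ih (n - i) (by omega)]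
        rw [h2] at h1
        simp only [Nat.sub_zero, Nat.sub_self, hc0, one_mul, mul_one] at h1
        rw [← h1, Complex.real_smul]
        push_cast
        ring
  intro t ht
  have h1 := hc t ht
  simp only [hcq] at h1
  refine ⟨h1.summable, ?_⟩
  rw [h1.tsum_eq, hexp t ht, ← Complex.exp_nat_mul]
  congr 1
  push_cast
  ring

end Pool.Agent.GLE.H91
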